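import Pool.Agent.Helper41.LD6.Defs

/-!
# Project LD6, block LEN, second half: the bound for the dimension
-/

set_option autoImplicit false

namespace Pool.Agent.Helper49.LD6

open Set MeasureTheory Filter Topology
open Pool.Agent.Helper41.LD (Kk Kk_mono Kk_succ Kk_ge Kk_tendsto)
open Pool.Agent.Helper41.LD3 (ll ll_pos ll_succ)
open Pool.Agent.Helper41.LD5 (len5)
open Pool.Agent.Helper41.LD6

theorem bdd_of_anti49 {a : ℕ → ℝ} (h0 : ∀ k, 0 ≤ a k) {k₀ : ℕ} (h : ∀ k ≥ k₀, a (k + 1) ≤ a k) : ∃ C : ℝ, ∀ k, a k ≤ C := by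
  refine ⟨∑ j ∈ Finset.range (k₀ + 1), a j, fun k => ?_⟩
  have h1 : ∀ j, j ≤ k₀ → a j ≤ ∑ i ∈ Finset.range (k₀ + 1), a i := fun j hj =>
    Finset.single_le_sum (f := a) (fun i _ => h0 i) (Finset.mem_range.2 (by omega))
  rcases le_total k k₀ with hk | hk
  · exact h1 k hk
  · obtain ⟨m, rfl⟩ := Nat.exists_eq_add_of_le hk
    induction m with
    | zero => exact h1 _ le_rfl
    | succ m ih => exact (h (k₀ + m) (by omega)).trans (ih (by omega))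

/-- a cubic against a quadratic, in the exponents -/
theorem ev_ratio49 {s : ℝ} (hs1 : s < 1) : ∀ᶠ K : ℕ in atTop, (2 : ℝ) ^ (3 * (K + 1) ^ 2) ≤ ((2 : ℝ) ^ (K ^ 3)) ^ (1 - s) := by
  obtain ⟨N, hN⟩ := exists_nat_gt (12 / (1 - s))
  filter_upwards [eventually_ge_atTop (max N 1)] with K hK
  have hK1 : 1 ≤ K := (le_max_right _ _).trans hK
  have hKN : N ≤ K := (le_max_left _ _).trans hK
  have hpos : 0 < 1 - s := by linarith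
  have h1 : (12 : ℝ) < (1 - s) * K := by
    rw [div_lt_iff₀ hpos] at hN
    have h2 : (N : ℝ) ≤ K := by exact_mod_cast hKN
    nlinarith
  have h3 : ((3 * (K + 1) ^ 2 : ℕ) : ℝ) ≤ ((K ^ 3 : ℕ) : ℝ) * (1 - s) := by
    push_cast
    have hKr : (1 : ℝ) ≤ K := by exact_mod_cast hK1
    have h4 : 3 * ((K : ℝ) + 1) ^ 2 ≤ 12 * (K : ℝ) ^ 2 := by nlinarith
    have h5 : 12 * (K : ℝ) ^ 2 ≤ (1 - s) * K * (K : ℝ) ^ 2 := mul_le_mul_of_nonneg_right h1.le (by positivity)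
    calc 3 * ((K : ℝ) + 1) ^ 2 ≤ 12 * (K : ℝ) ^ 2 := h4
      _ ≤ (1 - s) * K * (K : ℝ) ^ 2 := h5
      _ = (K : ℝ) ^ 3 * (1 - s) := by ring
  rw [← Real.rpow_natCast 2 (K ^ 3), ← Real.rpow_mul (by norm_num), ← Real.rpow_natCast 2 (3 * (K + 1) ^ 2)]
  exact Real.rpow_le_rpow_of_exponent_le (by norm_num) h3

theorem Kk_pred49 (K₀ : ℕ) {k : ℕ} (hk : 1 ≤ k) : Kk K₀ (k - 1) = K₀ + Nat.log 2 k := by
  unfold Kk
  rw [Nat.sub_add_cancel hk]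

theorem pro6_pos49 (e : ℕ → ℕ) (K₀ k : ℕ) : 0 < pro6 e K₀ k := by
  unfold pro6
  split_ifs <;> positivity

theorem pro6_inv49 {K₀ : ℕ} {e : ℕ → ℕ} (he : ∀ σ, 1 ≤ e σ ∧ e σ ≤ K₀ + σ) (k : ℕ) :
    (pro6 e K₀ (k + 1))⁻¹ ≤ 2 ^ (3 * Kk K₀ k ^ 2) := by
  unfold pro6
  rw [if_neg (Nat.succ_ne_zero k), Nat.add_sub_cancel]
  have h1 : ((1 / 2 : ℝ) ^ (3 * (e (Nat.log 2 (k + 1)) * Kk K₀ k)))⁻¹ = 2 ^ (3 * (e (Nat.log 2 (k + 1)) * Kk K₀ k)) := by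
    rw [← inv_pow]
    norm_num
  rw [h1]
  refine pow_le_pow_right₀ (by norm_num) (Nat.mul_le_mul_left _ ?_)
  rw [pow_two]
  exact Nat.mul_le_mul_right _ (he _).2

theorem len5_succ49 (K₀ : ℕ) (L₀ : ℝ) (k : ℕ) : len5 1 K₀ L₀ (k + 2) = len5 1 K₀ L₀ (k + 1) / 2 ^ (Kk K₀ k ^ 3) := by
  have h1 : len5 1 K₀ L₀ (k + 2) = ll 1 K₀ (L₀ / 2 ^ ((4 * K₀) ^ (2 * 1 + 2))) (k + 1) := by
    simp [len5]
  have h2 : len5 1 K₀ L₀ (k + 1) = ll 1 K₀ (L₀ / 2 ^ ((4 * K₀) ^ (2 * 1 + 2))) k := by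
    simp [len5]
  rw [h1, h2, ll_succ]

theorem len5_pos49 {L₀ : ℝ} (hL : 0 < L₀) (K₀ k : ℕ) : 0 < len5 1 K₀ L₀ k := by
  unfold len5
  split_ifs
  · exact hL
  · exact ll_pos (by positivity) _ _

theorem mass_bound6 {L₀ : ℝ} (hL : 0 < L₀) {K₀ : ℕ} (hK₀ : 1 ≤ K₀) {e : ℕ → ℕ} (he : ∀ σ, 1 ≤ e σ ∧ e σ ≤ K₀ + σ) {s : ℝ} (hs : 0 < s) (hs1 : s < 1) :
    ∃ C : ℝ, ∀ k, (∏ j ∈ Finset.range (k + 1), (pro6 e K₀ j)⁻¹) * len5 1 K₀ L₀ k ^ (1 - s) ≤ C := by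
  obtain ⟨k₀, hk₀⟩ := eventually_atTop.1 ((Kk_tendsto K₀).eventually (ev_ratio49 hs1))
  refine bdd_of_anti49 (k₀ := k₀ + 1) (fun k => ?_) fun k hk => ?_
  · exact mul_nonneg (Finset.prod_nonneg fun j _ => (inv_pos.2 (pro6_pos49 e K₀ j)).le)
      (Real.rpow_nonneg (len5_pos49 hL K₀ k).le _)
  · obtain ⟨m, rfl⟩ : ∃ m, k = m + 1 := ⟨k - 1, by omega⟩
    have hpos := len5_pos49 hL K₀ (m + 1)
    have hXpos : (0 : ℝ) < 2 ^ (Kk K₀ m ^ 3) := by positivity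
    rw [Finset.prod_range_succ _ (m + 1 + 1), len5_succ49, Real.div_rpow hpos.le hXpos.le]
    have e3 : (pro6 e K₀ (m + 1 + 1))⁻¹ ≤ ((2 : ℝ) ^ (Kk K₀ m ^ 3)) ^ (1 - s) := by
      refine (pro6_inv49 he (m + 1)).trans ((pow_le_pow_right₀ (by norm_num) ?_).trans (hk₀ m (by omega)))
      refine Nat.mul_le_mul_left _ (Nat.pow_le_pow_left ?_ 2)
      have := Kk_succ K₀ m
      omega
    have hP0 : 0 ≤ ∏ j ∈ Finset.range (m + 1 + 1), (pro6 e K₀ j)⁻¹ :=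
      Finset.prod_nonneg fun j _ => (inv_pos.2 (pro6_pos49 e K₀ j)).le
    have hBs : 0 < ((2 : ℝ) ^ (Kk K₀ m ^ 3)) ^ (1 - s) := Real.rpow_pos_of_pos hXpos _
    have hℓs : 0 ≤ len5 1 K₀ L₀ (m + 1) ^ (1 - s) := Real.rpow_nonneg hpos.le _
    rw [mul_div_assoc', div_le_iff₀ hBs]
    calc (∏ j ∈ Finset.range (m + 1 + 1), (pro6 e K₀ j)⁻¹) * (pro6 e K₀ (m + 1 + 1))⁻¹ * len5 1 K₀ L₀ (m + 1) ^ (1 - s)
        ≤ (∏ j ∈ Finset.range (m + 1 + 1), (pro6 e K₀ j)⁻¹) * ((2 : ℝ) ^ (Kk K₀ m ^ 3)) ^ (1 - s) * len5 1 K₀ L₀ (m + 1) ^ (1 - s) := by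
          gcongr
      _ = _ := by ring

end Pool.Agent.Helper49.LD6
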